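import Pool.Agent.H70.GrigUU

set_option autoImplicit false

namespace Pool.Agent.Results.MP_4717c3_al.Counterexample

theorem result : ∃ (p : ℕ) (F : Type) (_ : Field F) (G : Type) (_ : Group G),
    p.Prime ∧ CharP F p ∧ (∀ x : F, x ≠ 0 → ∃ n : ℕ, 1 ≤ n ∧ x ^ n = 1) ∧
    (∀ g : G, ∃ n : ℕ, 1 ≤ n ∧ g ^ n = 1) ∧
    ∃ u : (MonoidAlgebra F G)ˣ, ∀ i : ℕ, 1 ≤ i →
      ¬ IsNilpotent ((u : MonoidAlgebra F G) ^ i - 1) := by
  classical
  have hc : Nat.card (GaloisField 2 2) = 4 := GaloisField.card 2 2 (by norm_num)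
  obtain ⟨ω, hω⟩ : ∃ ω : GaloisField 2 2, ω ∉ ({0, -1} : Finset (GaloisField 2 2)) := by
    have := Fintype.ofFinite (GaloisField 2 2)
    apply Finset.exists_mem_notMem_of_card_lt_card (t := Finset.univ) ?_ |>.imp fun _ h => h.2
    rw [Finset.card_univ, ← Nat.card_eq_fintype_card, hc]
    exact Finset.card_le_two.trans_lt (by norm_num)
  simp only [Finset.mem_insert, Finset.mem_singleton, not_or] at hω
  refine ⟨2, GaloisField 2 2, inferInstance, Pool.Agent.H70.GrigDefs.Grig, inferInstance,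
    Nat.prime_two, inferInstance, fun x hx => ?_,
    fun g => isOfFinOrder_iff_pow_eq_one.1 (Pool.Agent.H70.GrigTor.torsion g),
    Pool.Agent.H70.GrigUU.main ω hω.1 fun h => hω.2 (eq_neg_of_add_eq_zero_right h)⟩
  obtain ⟨n, hn, e⟩ := isOfFinOrder_iff_pow_eq_one.1 (isOfFinOrder_of_finite (Units.mk0 x hx))
  exact ⟨n, hn, congrArg Units.val e⟩

end Pool.Agent.Results.MP_4717c3_al.Counterexample
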